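import Pool.Agent.H30HQ.Small

set_option autoImplicit false

namespace Pool.Agent.H61HQ

open Pool.Agent.HofQ Pool.Agent.H30HQ

variable {f : ℕ → ℕ}

theorem no7 (h : Sol f) {m : ℕ} (hmin : ∀ j, 12 ≤ j → j < m + 2 → 8 ≤ f j) {x : ℕ} (h1 : 1 ≤ x)
    (h2 : x < m + 2) : f x ≠ 7 := by
  intro hx
  rcases Nat.lt_or_ge x 12 with hx12 | hx12
  · have e1 := h.h1
    have e2 := h.h2
    have e3 := v3 h
    have e4 := v4 h
    have e5 := v5 h
    have e6 := v6 h
    have e7 := v7 h
    have e8 := v8 h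
    have e9 := v9 h
    have e10 := v10 h
    have e11 := v11 h
    interval_cases x <;> omega
  · have := hmin x hx12 h2
    omega

/-- The case `f (m - 4 - f (m - 4)) ≤ 7` is impossible. -/
theorem L2 (h : Sol f) {m : ℕ} (hm : 34 ≤ m) (hmin : ∀ j, 12 ≤ j → j < m + 2 → 8 ≤ f j)
    (h0 : f m = m) (h1 : f (m + 1) + 9 = m) (h2 : f (m + 2) = 7) (w1 : 9 ≤ f (m - 1))
    (w2 : f (m - 1) ≤ 11) (c3 : m ≤ f (m - 3) + 6) (hP : 8 ≤ f (m - 1 - f (m - 2)))
    (hg : 16 ≤ f (m - f (m - 2))) (hz : f (m - 4 - f (m - 4)) ≤ 7) : False := by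
  have n7 := @no7 f h m hmin
  obtain ⟨F, hF⟩ : ∃ F : ℕ → ℕ, ∀ i, F i = f (m - i) := ⟨_, fun _ => rfl⟩
  have hF8 : ∀ i, i ≤ 20 → 8 ≤ F i := fun i hi => by
    rw [hF]; exact hmin _ (by omega) (by omega)
  have hFl : ∀ i, i ≤ 20 → F i + i ≤ m := fun i hi => by
    rw [hF]
    have := h.le (m - i) (by omega)
    omega
  -- equations
  have eqn : ∀ i, i ≤ 20 → F i = f (m - i - F (i + 1)) + f (m - i - F (i + 2)) := by
    intro i hi
    have := h.eqn (m - i) (by omega)
    rw [hF, hF, hF]
    rwa [show m - i - 1 = m - (i + 1) by omega, show m - i - 2 = m - (i + 2) by omega] at this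
  -- k ≥ 1
  have hk1 : f (m - 4) + 5 ≤ m := by
    have e1 := h.eqn (m + 3) (by omega)
    have e2 := h.lt1 (m + 4) (by omega)
    rw [show m + 3 - 1 = m + 2 by omega, show m + 3 - 2 = m + 1 by omega, h2,
      show m + 3 - 7 = m - 4 by omega, show m + 3 - f (m + 1) = 12 by omega, v12 h] at e1
    rw [show m + 4 - 1 = m + 3 by omega] at e2
    omega
  obtain ⟨s, hs⟩ : ∃ s, s + 3 + f (m - 3) = m := ⟨m - 3 - f (m - 3), by
    have := h.le (m - 3) (by omega)
    omega⟩
  obtain ⟨k, hk⟩ : ∃ k, k + 4 + f (m - 4) = m := ⟨m - 4 - f (m - 4), by omega⟩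
  have hz' : f k ≤ 7 := by rwa [show m - 4 - f (m - 4) = k by omega] at hz
  have hk11 : k ≤ 11 := by
    by_contra hc
    have := hmin k (by omega) (by omega)
    omega
  have hs' : s + 3 + F 3 = m := by rw [hF 3]; exact hs
  have hk' : k + 4 + F 4 = m := by rw [hF 4]; exact hk
  have x1 : F 1 = f (m - 1) := hF 1
  have E0 : F (F 1) + F (F 2) = m := by
    have := eqn 0 (by omega)
    simp only [Nat.reduceAdd, Nat.sub_zero] at this
    rw [hF 0, Nat.sub_zero, h0] at this
    rw [hF (F 1), hF (F 2)]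
    exact this.symm
  have E1 : F (F 1 - 1) + 10 = m := by
    have e1 := h.eqn (m + 1) (by omega)
    rw [show m + 1 - 1 = m by omega, show m + 1 - 2 = m - 1 by omega, h0,
      show m + 1 - m = 1 by omega, h.h1, ← x1] at e1
    rw [hF (F 1 - 1), show m - (F 1 - 1) = m + 1 - F 1 by omega]
    omega
  have Ep : F (1 + F 2) + f (s + 2) = F 1 := by
    have := eqn 1 (by omega)
    simp only [Nat.reduceAdd] at this
    rw [show m - 1 - F 3 = s + 2 by omega] at this
    rw [this, hF (1 + F 2), show m - (1 + F 2) = m - 1 - F 2 by omega]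
  have Eb : F 2 = f (s + 1) + f (k + 2) := by
    have := eqn 2 (by omega)
    simp only [Nat.reduceAdd] at this
    rw [show m - 2 - F 3 = s + 1 by omega, show m - 2 - F 4 = k + 2 by omega] at this
    exact this
  have E3 : m = s + 3 + f (k + 1) + F (3 + F 5) := by
    have := eqn 3 (by omega)
    simp only [Nat.reduceAdd] at this
    rw [show m - 3 - F 4 = k + 1 by omega] at this
    rw [hF (3 + F 5), show m - (3 + F 5) = m - 3 - F 5 by omega]
    omega
  have hA : F 11 + 11 = m → F 10 ≠ 8 := by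
    intro h5 h6
    have := eqn 10 (by omega)
    simp only [Nat.reduceAdd] at this
    rw [show m - 10 - F 11 = 1 by omega, h.h1, h6] at this
    have h12 := hF8 12 (by omega)
    have h12' := hFl 12 (by omega)
    exact n7 (x := m - 10 - F 12) (by omega) (by omega) (by omega)
  have hB : F 13 + 14 = m → F 12 ≠ 8 := by
    intro h5 h6
    have := eqn 12 (by omega)
    simp only [Nat.reduceAdd] at this
    rw [show m - 12 - F 13 = 2 by omega, h.h2, h6] at this
    have h12 := hF8 14 (by omega)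
    have h12' := hFl 14 (by omega)
    exact n7 (x := m - 12 - F 14) (by omega) (by omega) (by omega)
  have hC : F 14 + 14 = m → F 12 ≠ 8 := by
    intro h5 h6
    have := eqn 12 (by omega)
    simp only [Nat.reduceAdd] at this
    rw [show m - 12 - F 14 = 2 by omega, h.h2, h6] at this
    have h12 := hF8 13 (by omega)
    have h12' := hFl 13 (by omega)
    exact n7 (x := m - 12 - F 13) (by omega) (by omega) (by omega)
  have hgF : 16 ≤ F (F 2) := by rw [hF (F 2), hF 2]; exact hg
  have hPF : 8 ≤ F (1 + F 2) := by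
    rw [hF (1 + F 2), hF 2, show m - (1 + f (m - 2)) = m - 1 - f (m - 2) by omega]; exact hP
  have hw1 : 9 ≤ F 1 := by rw [hF]; exact w1
  have hw2 : F 1 ≤ 11 := by rw [hF]; exact w2
  have hs3 : s ≤ 3 := by omega
  have he8 := hF8 5 (by omega)
  have hb8 := hF8 2 (by omega)
  have hel : F 5 ≤ s + f (k + 1) := by
    have h4 := hFl 5 (by omega)
    have h3 : F (3 + F 5) ≤ m - (3 + F 5) := by
      rw [hF (3 + F 5)]
      exact h.le _ (by omega)
    omega
  have key : k ≠ 0 := by omega
  generalize hw : F 1 = w at *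
  generalize hb : F 2 = b at *
  generalize he : F 5 = e at *
  have l8 := hF8 8 (by omega)
  have l9 := hF8 9 (by omega)
  have l10 := hF8 10 (by omega)
  have l11 := hF8 11 (by omega)
  have l12 := hF8 12 (by omega)
  have u9 := hFl 9 (by omega)
  have u10 := hFl 10 (by omega)
  have u11 := hFl 11 (by omega)
  have u12 := hFl 12 (by omega)
  have t1 := h.h1
  have t2 := h.h2
  have t3 := v3 h
  have t4 := v4 h
  have t5 := v5 h
  have t6 := v6 h
  have t7 := v7 h
  have t8 := v8 h
  have t9 := v9 h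
  have t10 := v10 h
  have t11 := v11 h
  have t12 := v12 h
  have t13 := v13 h
  clear hs hk hF8 hFl eqn n7
  interval_cases s <;> interval_cases k <;>
    simp only [Nat.reduceAdd, t1, t2, t3, t4, t5, t6, t7, t8, t9, t10, t11, t12, t13] at * <;>
    first
    | omega
    | (subst Eb
       interval_cases w <;> first | omega | (interval_cases e <;> simp only [Nat.reduceAdd, Nat.reduceSub] at * <;> omega))

end Pool.Agent.H61HQ
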