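import Pool.Agent.H61HQ.L2

set_option autoImplicit false

namespace Pool.Agent.H61HQ

open Pool.Agent.HofQ Pool.Agent.H30HQ

variable {f : ℕ → ℕ}

theorem twelve_le (h : Sol f) {m k P : ℕ} (h8 : ∀ j, 12 ≤ j → j < m + 2 → 8 ≤ f j)
    (hm : 34 ≤ m) (e0 : f m = m) (e1 : f (m + 1) + 9 = m) (e2 : f (m + 2) = 7)
    (w1 : 9 ≤ f (m - 1)) (ew : f (m - 1) ≤ 11) (e3 : m ≤ f (m - 3) + 6) (hP : 25 ≤ P)
    (hPm : P < m) (eP : f (m - 2) + P + 1 = m) (hg : 16 ≤ f (P + 1))
    (hk : f (m - 4) + 4 + k = m) : 12 ≤ k := by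
  by_contra hc
  have hk1 : f (m - 4) + 5 ≤ m := by
    have e1' := h.eqn (m + 3) (by omega)
    have e2' := h.lt1 (m + 4) (by omega)
    rw [show m + 3 - 1 = m + 2 by omega, show m + 3 - 2 = m + 1 by omega, e2,
      show m + 3 - 7 = m - 4 by omega, show m + 3 - f (m + 1) = 12 by omega, v12 h] at e1'
    rw [show m + 4 - 1 = m + 3 by omega] at e2'
    omega
  refine L2 h hm h8 e0 e1 e2 w1 ew e3 ?_ ?_ ?_
  · rw [show m - 1 - f (m - 2) = P by omega]
    exact h8 P (by omega) (by omega)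
  · rw [show m - f (m - 2) = P + 1 by omega]
    exact hg
  · rw [show m - 4 - f (m - 4) = k by omega]
    have h1 : 1 ≤ k := by omega
    have h2 : k ≤ 11 := by omega
    have t1 := h.h1
    have t2 := h.h2
    have t3 := v3 h
    have t4 := v4 h
    have t5 := v5 h
    have t6 := v6 h
    have t7 := v7 h
    have t8 := v8 h
    have t9 := v9 h
    have t10 := v10 h
    have t11 := v11 h
    clear hk e1 e2 w1 ew e3 hP hPm eP hg hk1 h8 hm e0 hc
    interval_cases k <;> omega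

end Pool.Agent.H61HQ
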